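import Pool.Agent.helper40.TW.SpecG
import Pool.Agent.helper57.LD.Z0
import Pool.Agent.helper11.EV.ZT

set_option autoImplicit false

open Complex MeasureTheory Metric
open scoped ComplexConjugate ArithmeticFunction.vonMangoldt

namespace Pool.Agent.TWG

open Pool.Agent.helper6.LD (wt)
open Pool.Agent.helper85.BVP (ex)
open Pool.Agent.TW (Win Pw)

theorem ZE1_ne (s : ℂ) (hs : 1 ≤ s.re) : Pool.Agent.EV.Zt s ≠ 0 := by
  by_cases h : s = 1
  · rw [h, Pool.Agent.EV.ZT_one]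
    exact one_ne_zero
  · rw [Pool.Agent.EV.ZT_ne s h]
    exact mul_ne_zero (sub_ne_zero.mpr h) (riemannZeta_ne_zero_of_one_le_re hs)

theorem ZE1_diff (s : ℂ) (hs : 1 ≤ s.re) : DifferentiableAt ℂ (logDeriv Pool.Agent.EV.Zt) s := by
  have h1 : DifferentiableAt ℂ Pool.Agent.EV.Zt s := Pool.Agent.EV.ZT_diff s
  have h2 : DifferentiableAt ℂ (deriv Pool.Agent.EV.Zt) s := by
    have h3 : Differentiable ℂ (deriv Pool.Agent.EV.Zt) := by
      have h4 := Pool.Agent.EV.ZT_diff.differentiableOn (s := Set.univ)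
      have h5 := h4.deriv isOpen_univ
      exact differentiableOn_univ.mp h5
    exact h3 s
  exact h2.div h1 (ZE1_ne s hs)

theorem ZE1_bound : ∃ C : ℝ, 0 < C ∧ ∀ s : ℂ, 1 ≤ s.re → ‖s - 1‖ ≤ 2 → ‖logDeriv Pool.Agent.EV.Zt s‖ ≤ C := by
  have hK : IsCompact ({s : ℂ | 1 ≤ s.re} ∩ closedBall (1 : ℂ) 2) :=
    (isCompact_closedBall (1 : ℂ) 2).inter_left (isClosed_le continuous_const Complex.continuous_re)
  have hc : ContinuousOn (logDeriv Pool.Agent.EV.Zt) ({s : ℂ | 1 ≤ s.re} ∩ closedBall (1 : ℂ) 2) :=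
    fun s hs => (ZE1_diff s hs.1).continuousAt.continuousWithinAt
  obtain ⟨C, hC⟩ := hK.exists_bound_of_continuousOn hc
  refine ⟨max C 1, lt_of_lt_of_le one_pos (le_max_right _ _), ?_⟩
  intro s hs hs2
  refine (hC s ⟨hs, ?_⟩).trans (le_max_left _ _)
  rw [mem_closedBall, dist_eq_norm]
  exact hs2

theorem ZE1_log (s : ℂ) (hs : 1 < s.re) :
    logDeriv riemannZeta s = logDeriv Pool.Agent.EV.Zt s - (1 * s - 1)⁻¹ := by
  have hs1 : s ≠ 1 := by
    intro h
    rw [h, one_re] at hs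
    exact lt_irrefl _ hs
  have h2 : Pool.Agent.EV.Zt =ᶠ[nhds s] (fun s => (s - 1) * riemannZeta s) := by
    filter_upwards [isOpen_ne.mem_nhds hs1] with z hz
    exact Pool.Agent.EV.ZT_ne z hz
  have h3 : logDeriv Pool.Agent.EV.Zt s = logDeriv (fun s => (s - 1) * riemannZeta s) s := by
    rw [logDeriv_apply, logDeriv_apply, h2.deriv_eq, h2.eq_of_nhds]
  have hd1 : DifferentiableAt ℂ (fun s : ℂ => s - 1) s := differentiableAt_id.sub_const 1
  have h5 := logDeriv_mul (f := fun s : ℂ => s - 1) (g := riemannZeta) s (sub_ne_zero.mpr hs1)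
    (riemannZeta_ne_zero_of_one_le_re hs.le) hd1 (differentiableAt_riemannZeta hs1)
  rw [h3, h5]
  have h4 : logDeriv (fun s : ℂ => s - 1) s = (1 * s - 1)⁻¹ := by
    rw [logDeriv_apply, deriv_sub_const, deriv_id'', one_mul, one_div]
  rw [h4]
  ring

theorem ZE1_main : ∃ C : ℝ, 0 < C ∧ ∀ (k : ℕ) (r : ℝ), 1 ≤ k → 0 < r → r ≤ 1 →
    ∑' n, wt (1 + r) k n ≤ (r ^ k)⁻¹ + C * (r ^ (k - 1))⁻¹ := by
  obtain ⟨C, hC, hb⟩ := ZE1_bound
  refine ⟨C, hC, ?_⟩
  intro k r hk hr hr1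
  have hM : 1 < 1 + r := by linarith
  set c : ℂ := ((1 + r : ℝ) : ℂ) + (0 : ℝ) * I with hc
  have hcre : c.re = 1 + r := by
    rw [hc]
    simp
  have hcr : c = 1 + (r : ℂ) := by
    rw [hc]
    push_cast
    ring
  have h1 := Pool.Agent.helper6.LD.h57_series (M := 1 + r) k 0
  have h2 := Pool.Agent.helper6.LD.h57_deriv hM k 0
  rw [← hc] at h1 h2
  -- the iterated derivative
  have hev : logDeriv riemannZeta =ᶠ[nhds c]
      (logDeriv Pool.Agent.EV.Zt - fun s : ℂ => (1 * s - 1)⁻¹) := by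
    have ho : {s : ℂ | 1 < s.re} ∈ nhds c :=
      (isOpen_lt continuous_const Complex.continuous_re).mem_nhds (by
        show 1 < c.re
        rw [hcre]
        exact hM)
    filter_upwards [ho] with s hs
    exact ZE1_log s hs
  have hdo : DifferentiableOn ℂ (logDeriv Pool.Agent.EV.Zt) {s : ℂ | 1 < s.re} :=
    fun s hs => (ZE1_diff s (le_of_lt hs)).differentiableWithinAt
  have hopen : IsOpen {s : ℂ | 1 < s.re} := isOpen_lt continuous_const Complex.continuous_re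
  have hcm : c ∈ {s : ℂ | 1 < s.re} := by
    show 1 < c.re
    rw [hcre]
    exact hM
  have ha1 : ContDiffAt ℂ (k - 1 : ℕ) (logDeriv Pool.Agent.EV.Zt) c :=
    (hdo.contDiffOn hopen).contDiffAt (hopen.mem_nhds hcm)
  have hc1 : (1 : ℂ) * c - 1 ≠ 0 := by
    rw [hcr]
    intro h
    have h' : (r : ℂ) = 0 := by linear_combination h
    exact hr.ne' (by exact_mod_cast h')
  have ha2 : ContDiffAt ℂ (k - 1 : ℕ) (fun s : ℂ => (1 * s - 1)⁻¹) c := by
    have h3 : ContDiffAt ℂ (k - 1 : ℕ) (fun s : ℂ => 1 * s - 1) c :=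
      (contDiffAt_const.mul contDiffAt_id).sub contDiffAt_const
    exact h3.inv hc1
  have hsub : iteratedDeriv (k - 1) (logDeriv riemannZeta) c =
      iteratedDeriv (k - 1) (logDeriv Pool.Agent.EV.Zt) c - iteratedDeriv (k - 1) (fun s : ℂ => (1 * s - 1)⁻¹) c := by
    rw [hev.iteratedDeriv_eq, iteratedDeriv_sub ha1 ha2]
  have hn1 : ‖iteratedDeriv (k - 1) (logDeriv Pool.Agent.EV.Zt) c‖ ≤ (k - 1).factorial * C / r ^ (k - 1) := by
    have hin : ∀ z ∈ closedBall c r, 1 ≤ z.re ∧ ‖z - 1‖ ≤ 2 := by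
      intro z hz
      rw [mem_closedBall, dist_eq_norm] at hz
      have h3 := Complex.abs_re_le_norm (z - c)
      rw [Complex.sub_re, hcre] at h3
      have h4 := (abs_le.mp (h3.trans hz)).1
      refine ⟨by linarith, ?_⟩
      have h5 : z - 1 = (z - c) + (r : ℂ) := by
        rw [hcr]
        ring
      rw [h5]
      refine (norm_add_le _ _).trans ?_
      rw [Complex.norm_real, Real.norm_of_nonneg hr.le]
      linarith
    have hdc : DiffContOnCl ℂ (logDeriv Pool.Agent.EV.Zt) (ball c r) := by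
      refine DifferentiableOn.diffContOnCl ?_
      rw [closure_ball c hr.ne']
      exact fun z hz => (ZE1_diff z (hin z hz).1).differentiableWithinAt
    exact norm_iteratedDeriv_le_of_forall_mem_sphere_norm_le (k - 1) hr hdc
      (fun z hz => hb z (hin z (sphere_subset_closedBall hz)).1 (hin z (sphere_subset_closedBall hz)).2)
  have hn2 : ‖iteratedDeriv (k - 1) (fun s : ℂ => (1 * s - 1)⁻¹) c‖ = (k - 1).factorial * (r ^ k)⁻¹ := by
    rw [iteratedDeriv_eq_iterate, iter_deriv_inv_linear_sub]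
    have e1 : (1 : ℂ) * c - 1 = (r : ℂ) := by
      rw [hcr]
      ring
    show ‖(-1 : ℂ) ^ (k - 1) * ((k - 1).factorial : ℂ) * 1 ^ (k - 1) * (1 * c - 1) ^ (-1 - ((k - 1 : ℕ) : ℤ))‖ = _
    rw [e1, norm_mul, norm_mul, norm_mul, norm_pow, norm_neg, norm_one, one_pow, one_pow, norm_one, one_mul, mul_one,
      Complex.norm_natCast, norm_zpow, Complex.norm_real, Real.norm_of_nonneg hr.le]
    have e2 : (-1 - ((k - 1 : ℕ) : ℤ)) = -(k : ℤ) := by omega
    rw [e2, zpow_neg, zpow_natCast]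
  -- the series
  have hwt : ((∑' n, wt (1 + r) k n : ℝ) : ℂ) = ∑' n : ℕ, (wt (1 + r) k n : ℂ) * (n : ℂ) ^ (-((0 : ℝ) * I)) := by
    rw [Complex.ofReal_tsum]
    refine tsum_congr ?_
    intro n
    simp
  have hfac : (0 : ℝ) < (k - 1).factorial := by exact_mod_cast (k - 1).factorial_pos
  have hnorm : ∑' n, wt (1 + r) k n ≤ ((k - 1).factorial : ℝ)⁻¹ *
      ‖iteratedDeriv (k - 1) (logDeriv riemannZeta) c‖ := by
    have h3 : ∑' n, wt (1 + r) k n ≤ ‖((∑' n, wt (1 + r) k n : ℝ) : ℂ)‖ := by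
      rw [Complex.norm_real]
      exact Real.le_norm_self _
    refine h3.trans (le_of_eq ?_)
    rw [hwt, h1, h2, norm_mul, norm_neg, norm_mul, norm_pow, norm_neg, norm_one, one_pow, one_mul, norm_inv,
      Complex.norm_natCast]
  refine hnorm.trans ?_
  rw [hsub]
  have h3 := norm_sub_le (iteratedDeriv (k - 1) (logDeriv Pool.Agent.EV.Zt) c)
    (iteratedDeriv (k - 1) (fun s : ℂ => (1 * s - 1)⁻¹) c)
  have h4 : ‖iteratedDeriv (k - 1) (logDeriv Pool.Agent.EV.Zt) c - iteratedDeriv (k - 1) (fun s : ℂ => (1 * s - 1)⁻¹) c‖ ≤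
      (k - 1).factorial * ((r ^ k)⁻¹ + C * (r ^ (k - 1))⁻¹) := by
    rw [hn2] at h3
    refine h3.trans ?_
    have h5 : (k - 1).factorial * C / r ^ (k - 1) = (k - 1).factorial * (C * (r ^ (k - 1))⁻¹) := by
      rw [div_eq_mul_inv, mul_assoc]
    rw [h5] at hn1
    linarith
  have h6 := mul_le_mul_of_nonneg_left h4 (inv_nonneg.mpr hfac.le)
  rw [← mul_assoc, inv_mul_cancel₀ hfac.ne', one_mul] at h6
  exact h6

theorem ZE1 : ZE1_stmt := by
  obtain ⟨C, hC, h⟩ := ZE1_main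
  refine ⟨1 + C, by linarith, ?_, ?_⟩
  · intro r hr hr1
    have h1 := h 1 r le_rfl hr hr1
    rw [pow_one, Nat.sub_self, pow_zero, inv_one, mul_one, ← one_div] at h1
    linarith
  · intro k r hk hr hr1
    have h1 := h k r hk hr hr1
    have h2 : (r ^ (k - 1))⁻¹ ≤ (r ^ k)⁻¹ := by
      refine inv_anti₀ (by positivity) ?_
      exact pow_le_pow_of_le_one hr.le hr1 (by omega)
    have h3 : C * (r ^ (k - 1))⁻¹ ≤ C * (r ^ k)⁻¹ := mul_le_mul_of_nonneg_left h2 hC.le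
    linarith

end Pool.Agent.TWG
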